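import Pool.Agent.Helper21.MT7.Stmts
import Pool.Agent.Helper40.MT.MainC
import Pool.Agent.Helper8.MT.PSG

/-!
# FUL7: the Lie algebra of the image of an open subgroup contains the Lie algebra of isometries
-/

set_option autoImplicit false

open NumberField MU Matrix

namespace MT

section lin

variable {K : Type} [Field K] {n : ℕ}

theorem ful_zero_of_rank (R : Matrix (Fin n) (Fin n) K) (h : R.rank = 0) : R = 0 := by
  rw [Matrix.rank, Submodule.finrank_eq_zero, LinearMap.range_eq_bot] at h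
  apply (Matrix.toLin' (R := K)).injective
  rw [Matrix.toLin'_apply', h, map_zero]

/-- matrices of rank one -/
theorem ful_rank_one (R : Matrix (Fin n) (Fin n) K) (h : R.rank = 1) :
    ∃ v w : Fin n → K, v ≠ 0 ∧ w ≠ 0 ∧ R = vecMulVec v w := by
  rw [Matrix.rank, finrank_eq_one_iff'] at h
  obtain ⟨⟨v, hvm⟩, hv, hall⟩ := h
  have hcol : ∀ j : Fin n, ∃ c : K, ∀ i, R i j = c * v i := by
    intro j
    obtain ⟨c, hc⟩ := hall ⟨R.mulVec (Pi.single j 1), ⟨Pi.single j 1, rfl⟩⟩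
    refine ⟨c, fun i => ?_⟩
    have h1 := congrFun (congrArg Subtype.val hc) i
    have h2 : R.mulVec (Pi.single j 1) i = R i j := by
      rw [Matrix.mulVec_single_one]
      rfl
    rw [← h2]
    exact h1.symm
  choose w hw using hcol
  have hv0 : v ≠ 0 := fun h0 => hv (Subtype.ext h0)
  have hR : R = vecMulVec v w := by
    ext i j
    rw [vecMulVec_apply, hw j i, mul_comm]
  refine ⟨v, w, hv0, ?_, hR⟩
  rintro rfl
  rw [vecMulVec_zero] at hR
  obtain ⟨x, hx⟩ := hvm
  rw [hR, Matrix.mulVecLin_zero, LinearMap.zero_apply] at hx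
  exact hv0 hx.symm

/-- a similitude `g` with `g - 1` of rank one is an isometry -/
theorem ful_mult (hn : 3 ≤ n) (ψ g : Matrix (Fin n) (Fin n) K) (hu : IsUnit ψ) (c : K)
    (hg : g.transpose * ψ * g = c • ψ) (hr : (g - 1).rank = 1) : c = 1 := by
  obtain ⟨v, w, -, hw, hvw⟩ := ful_rank_one _ hr
  have hg1 : g = 1 + vecMulVec v w := by rw [← hvw]; abel
  by_contra hc
  have hfix : ∀ x, w ⬝ᵥ x = 0 → g.mulVec x = x := by
    intro x hx
    rw [hg1, Matrix.add_mulVec, Matrix.one_mulVec, vecMulVec_mulVec, hx]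
    simp
  have hpf : ∀ x y, Psr.pf ψ (g.mulVec x) (g.mulVec y) = c * Psr.pf ψ x y := by
    intro x y
    have h1 : Psr.pf ψ (g.mulVec x) (g.mulVec y) = x ⬝ᵥ ((g.transpose * ψ * g).mulVec y) := by
      rw [Psr.pf, Matrix.dotProduct_mulVec, Matrix.dotProduct_mulVec, Matrix.dotProduct_mulVec,
        ← Matrix.vecMul_transpose g x, Matrix.vecMul_vecMul, Matrix.vecMul_vecMul, mul_assoc]
    rw [h1, hg, Matrix.smul_mulVec, dotProduct_smul, smul_eq_mul]
    rfl
  have hiso : ∀ x y, w ⬝ᵥ x = 0 → w ⬝ᵥ y = 0 → Psr.pf ψ x y = 0 := by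
    intro x y hx hy
    have h1 := hpf x y
    rw [hfix x hx, hfix y hy] at h1
    have h2 : (c - 1) * Psr.pf ψ x y = 0 := by linear_combination -h1
    rcases mul_eq_zero.1 h2 with h | h
    · exact absurd (sub_eq_zero.1 h) hc
    · exact h
  obtain ⟨i, hi⟩ := Function.ne_iff.mp hw
  rw [Pi.zero_apply] at hi
  set z : Fin n → K := Pi.single i (w i)⁻¹ with hz
  have hwz : w ⬝ᵥ z = 1 := by
    rw [hz, dotProduct_single, mul_inv_cancel₀ hi]
  let f : (Fin n → K) →ₗ[K] (Fin 2 → K) :=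
    (Matrix.of ![w, ψ.mulVec z]).mulVecLin
  have hker : LinearMap.ker f ≠ ⊥ := by
    apply LinearMap.ker_ne_bot_of_finrank_lt
    rw [Module.finrank_fin_fun, Module.finrank_fin_fun]
    omega
  obtain ⟨x, hx, hx0⟩ := Submodule.exists_mem_ne_zero_of_ne_bot hker
  rw [LinearMap.mem_ker] at hx
  have hx1 : w ⬝ᵥ x = 0 := congrFun hx 0
  have hx2 : Psr.pf ψ x z = 0 := by
    rw [Psr.pf, dotProduct_comm]
    exact congrFun hx 1
  apply hx0
  apply Psr.pf_nondeg hu
  intro y
  have hy : y = (y - (w ⬝ᵥ y) • z) + (w ⬝ᵥ y) • z := by abel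
  rw [hy, Psr.pf_add_right, Psr.pf_smul_right, hx2, mul_zero, add_zero]
  apply hiso x _ hx1
  rw [dotProduct_sub, dotProduct_smul, hwz, smul_eq_mul, mul_one, sub_self]

/-- the ranks of powers of a unipotent matrix -/
theorem ful_rank_pow [CharZero K] (u : Matrix (Fin n) (Fin n) K) (h1 : (u - 1) ^ n = 0)
    (j : ℕ) (hj : 1 ≤ j) (k : ℕ) : ((u ^ j - 1) ^ k).rank = ((u - 1) ^ k).rank := by
  set s : Matrix (Fin n) (Fin n) K := ∑ i ∈ Finset.range j, u ^ i with hs
  have hgeom : s * (u - 1) = u ^ j - 1 := by rw [hs, geom_sum_mul]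
  have hcomm : Commute s (u - 1) := by
    have hsu : Commute s u := by
      rw [hs]
      exact Commute.sum_left _ _ _ fun i _ => (Commute.refl u).pow_left i
    exact hsu.sub_right (Commute.one_right s)
  have hunit : IsUnit s := by
    obtain ⟨r, hr, hsr⟩ : ∃ r : Matrix (Fin n) (Fin n) K, Commute (u - 1) r ∧
        s = (j : K) • (1 : Matrix (Fin n) (Fin n) K) + (u - 1) * r := by
      refine ⟨∑ i ∈ Finset.range j, ∑ k ∈ Finset.range i, u ^ k, ?_, ?_⟩
      · apply Commute.sum_right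
        intro i _
        apply Commute.sum_right
        intro k _
        exact (((Commute.refl u).sub_left (Commute.one_left u))).pow_right k
      · rw [hs, Finset.mul_sum]
        have h3 : ∀ i ∈ Finset.range j, u ^ i = 1 + (u - 1) * ∑ k ∈ Finset.range i, u ^ k := by
          intro i _
          rw [mul_geom_sum]
          abel
        rw [Finset.sum_congr rfl h3, Finset.sum_add_distrib, Finset.sum_const, Finset.card_range,
          ← Nat.cast_smul_eq_nsmul K]
    have hnil : IsNilpotent ((u - 1) * r) := by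
      refine ⟨n, ?_⟩
      rw [hr.mul_pow, h1, zero_mul]
    have hj0 : (j : K) ≠ 0 := Nat.cast_ne_zero.mpr (by omega)
    have hu1 : IsUnit ((j : K) • (1 : Matrix (Fin n) (Fin n) K)) := by
      refine ⟨⟨(j : K) • 1, (j : K)⁻¹ • 1, ?_, ?_⟩, rfl⟩
      · rw [smul_mul_smul_comm, mul_inv_cancel₀ hj0, one_mul, one_smul]
      · rw [smul_mul_smul_comm, inv_mul_cancel₀ hj0, one_mul, one_smul]
    rw [hsr]
    refine IsNilpotent.isUnit_add_left_of_commute hnil hu1 ?_
    exact (Commute.one_right _).smul_right _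
  rw [← hgeom, hcomm.mul_pow]
  exact Matrix.rank_mul_eq_right_of_isUnit_det _ _
    ((Matrix.isUnit_iff_isUnit_det _).1 (hunit.pow k))

theorem ful_mono {X Y : Subgroup (Matrix.GeneralLinearGroup (Fin n) K)} (h : X ≤ Y) :
    LieZ X ≤ LieZ Y := by
  intro A hA f hf
  exact hA f fun x hx => hf x (h hx)

/-- the infinitesimal isometries -/
def skew (ψ : Matrix (Fin n) (Fin n) K) : Submodule K (Matrix (Fin n) (Fin n) K) where
  carrier := {A | A.transpose * ψ + ψ * A = 0}
  add_mem' := by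
    intro A B hA hB
    change A.transpose * ψ + ψ * A = 0 at hA
    change B.transpose * ψ + ψ * B = 0 at hB
    change (A + B).transpose * ψ + ψ * (A + B) = 0
    rw [Matrix.transpose_add, add_mul, mul_add]
    have : A.transpose * ψ + B.transpose * ψ + (ψ * A + ψ * B) =
      (A.transpose * ψ + ψ * A) + (B.transpose * ψ + ψ * B) := by abel
    rw [this, hA, hB, add_zero]
  zero_mem' := by simp
  smul_mem' := by
    intro c A hA
    change A.transpose * ψ + ψ * A = 0 at hA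
    change (c • A).transpose * ψ + ψ * (c • A) = 0
    rw [Matrix.transpose_smul, smul_mul_assoc, mul_smul_comm, ← smul_add, hA, smul_zero]

theorem skew_br (ψ A B : Matrix (Fin n) (Fin n) K) (hA : A ∈ skew ψ) (hB : B ∈ skew ψ) :
    A * B - B * A ∈ skew ψ := by
  change A.transpose * ψ + ψ * A = 0 at hA
  change B.transpose * ψ + ψ * B = 0 at hB
  change (A * B - B * A).transpose * ψ + ψ * (A * B - B * A) = 0
  have hA' : A.transpose * ψ = -(ψ * A) := eq_neg_of_add_eq_zero_left hA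
  have hB' : B.transpose * ψ = -(ψ * B) := eq_neg_of_add_eq_zero_left hB
  rw [Matrix.transpose_sub, Matrix.transpose_mul, Matrix.transpose_mul, sub_mul, mul_assoc, hA',
    mul_assoc, hB', mul_neg, mul_neg, ← mul_assoc, ← mul_assoc, hA', hB', mul_sub]
  simp only [neg_mul, neg_neg, mul_assoc]
  abel

theorem skew_conj (ψ g g' A : Matrix (Fin n) (Fin n) K) (c : K) (hg : g.transpose * ψ * g = c • ψ)
    (hgg : g * g' = 1) (hA : A ∈ skew ψ) : g * A * g' ∈ skew ψ := by
  change A.transpose * ψ + ψ * A = 0 at hA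
  change (g * A * g').transpose * ψ + ψ * (g * A * g') = 0
  have h1 : g.transpose * ψ = c • (ψ * g') := by
    have := congrArg (fun B => B * g') hg
    simp only [mul_assoc, hgg, mul_one, smul_mul_assoc] at this
    exact this
  have hgg2 : g'.transpose * g.transpose = 1 := by
    rw [← Matrix.transpose_mul, hgg, Matrix.transpose_one]
  have h2 : ψ * g = c • (g'.transpose * ψ) := by
    have := congrArg (fun B => g'.transpose * B) hg
    simp only [← mul_assoc, hgg2, one_mul, mul_smul_comm] at this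
    exact this
  rw [Matrix.transpose_mul, Matrix.transpose_mul, mul_assoc, mul_assoc, h1, ← mul_assoc ψ,
    ← mul_assoc ψ, h2]
  have h3 : g'.transpose * (A.transpose * c • (ψ * g')) + c • (g'.transpose * ψ) * A * g' =
      c • (g'.transpose * (A.transpose * ψ + ψ * A) * g') := by
    simp only [mul_add, add_mul, smul_add, mul_smul_comm, smul_mul_assoc, mul_assoc]
  rw [h3, hA, mul_zero, zero_mul, smul_zero]

end lin

theorem st_FUL7 (si7 : ST_SI7) (clif : ST_CLIF) (log7 : ST_LOG7) (zar : ST_ZAR) (ps1 : ST_PS1)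
    (ps2 : ST_PS2) (fre : ST_FRE) (hcyc : ST_CYC) : ST_FUL7 := by
  intro F _ _ S hS n w h M l _ hn hM hg H hH A hA
  obtain ⟨g, hg⟩ := hg
  obtain ⟨H₁, hle, hnor, hopen, e, he, hHe⟩ := exists_core H hH
  set ψ : Matrix (Fin n) (Fin n) ℚ_[l] := bas ℚ_[l] M.ψ with hψ
  have hdet : ψ.det ≠ 0 := bas_det _ _ M.ψ_det
  have hu : IsUnit ψ := (Matrix.isUnit_iff_isUnit_det _).2 (isUnit_iff_ne_zero.2 hdet)
  have hsym := bas_sym' ℚ_[l] M.ψ w M.ψ_sym
  have hsim : ∀ s : Gal F, ∃ c : ℚ_[l], (mat (M.ρ l) s).transpose * ψ * mat (M.ρ l) s = c • ψ :=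
    fun s => ⟨_, M.toPMot.gal_sim l s⟩
  have hcoe : ∀ x : Gal F, ((M.ρ l x : Matrix.GeneralLinearGroup (Fin n) ℚ_[l]) :
      Matrix (Fin n) (Fin n) ℚ_[l]) = mat (M.ρ l) x := fun _ => rfl
  set X := H₁.map (M.ρ l) with hX
  have hXH : X ≤ H.map (M.ρ l) := Subgroup.map_mono hle
  obtain ⟨zbr, zad, -, -, -⟩ := zar ℚ_[l] n X
  set a : Submodule ℚ_[l] (Matrix (Fin n) (Fin n) ℚ_[l]) := LieZ X ⊓ skew ψ with ha
  have hbr : ∀ A ∈ a, ∀ B ∈ a, A * B - B * A ∈ a := by
    intro A hA B hB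
    exact ⟨zbr A hA.1 B hB.1, skew_br ψ A B hA.2 hB.2⟩
  have hconj : ∀ x ∈ (M.ρ l).range, ∀ A ∈ a, (x : Matrix (Fin n) (Fin n) ℚ_[l]) * A *
      ((x⁻¹ : Matrix.GeneralLinearGroup (Fin n) ℚ_[l]) : Matrix (Fin n) (Fin n) ℚ_[l]) ∈ a := by
    rintro _ ⟨s, rfl⟩ A hA
    refine ⟨zad (M.ρ l s) ?_ A hA.1, ?_⟩
    · intro x hx
      obtain ⟨r, hr, rfl⟩ := Subgroup.mem_map.mp hx
      rw [← map_inv, ← map_mul, ← map_mul]
      exact Subgroup.mem_map_of_mem _ (hnor.conj_mem r hr s)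
    · obtain ⟨c, hc⟩ := hsim s
      refine skew_conj ψ _ _ A c hc ?_ hA.2
      rw [← Units.val_mul, mul_inv_cancel, Units.val_one]
  -- the monodromy operator
  obtain ⟨N, hNa, Λ, hNr⟩ : ∃ N ∈ a, ∃ Λ : Finset ℕ, ∀ k : ℕ, (N ^ k).rank = ∑ i ∈ Λ, (i - k) := by
    obtain ⟨⟨p, hp, hpl, hdis⟩, -⟩ := hM
    obtain ⟨𝔓, h𝔓, -⟩ := (fre F p hp).1
    obtain ⟨Λ, τ, hτ, hτr, -⟩ := hdis 𝔓 h𝔓
    have hle : ∀ i ∈ Λ, i ≤ n := by
      intro i hi
      have h1 := hτr 0
      rw [pow_zero, Matrix.rank_one, Fintype.card_fin] at h1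
      rw [h1]
      exact Finset.single_le_sum (f := fun i => i - 0) (fun _ _ => Nat.zero_le _) hi
    have hnil : (mat (M.ρ l) τ - 1) ^ n = 0 := by
      apply ful_zero_of_rank
      rw [hτr]
      exact Finset.sum_eq_zero fun i hi => Nat.sub_eq_zero_of_le (hle i hi)
    have hrk := ful_rank_pow (mat (M.ρ l) τ) hnil e he
    have hpow : ∀ k : ℕ, ((mat (M.ρ l) (τ ^ e) - 1) ^ k).rank = ∑ i ∈ Λ, (i - k) := by
      intro k
      rw [map_pow, hrk, hτr]
    have hnil' : (mat (M.ρ l) (τ ^ e) - 1) ^ n = 0 := by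
      apply ful_zero_of_rank
      rw [hpow]
      exact Finset.sum_eq_zero fun i hi => Nat.sub_eq_zero_of_le (hle i hi)
    obtain ⟨N, hN, hN1, -, hN2⟩ := log7 ℚ_[l] n X (M.ρ l (τ ^ e))
      (Subgroup.mem_map_of_mem _ (hHe τ)) hnil'
    have hcyc1 : ((cyc l F τ : ℤ_[l]ˣ) : ℤ_[l]) = 1 := by
      have := hcyc F F l p hp hpl 𝔓 h𝔓 0 τ (by rw [pow_zero]; exact hτ)
      rw [this, pow_zero]
    have hcyce : (((cyc l F (τ ^ e) : ℤ_[l]ˣ) : ℤ_[l]) : ℚ_[l]) = 1 := by
      rw [map_pow, Units.val_pow_eq_pow_val, hcyc1, one_pow, PadicInt.coe_one]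
    refine ⟨N, ⟨hN, hN2 ψ ?_⟩, Λ, ?_⟩
    · have h1 := M.ψ_gal l (τ ^ e)
      rw [hcyce, one_pow, one_smul] at h1
      exact h1
    · intro k
      rw [hN1 k]
      exact hpow k
  have hirr := clif ℚ_[l] n (M.ρ l).range a N Λ (si7 F S hS n w h M l hM) hconj hNa hNr
  -- the pseudo-reflection
  obtain ⟨c, hc⟩ := hsim g
  have hc1 : c = 1 := ful_mult hn ψ _ hu c hc hg
  rw [hc1, one_smul] at hc
  have key : A ∈ a := by
    rcases hsym with ⟨-, hodd⟩ | ⟨-, heven⟩
    · obtain ⟨v, u, hv, huu, hvu⟩ := ful_rank_one _ hg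
      have hg1 : mat (M.ρ l) g = 1 + vecMulVec v u := by rw [← hvu]; abel
      rw [hg1] at hc
      obtain ⟨d, hd, hd2⟩ := Psr.transvection_of hodd hu hv huu hc
      have hXX : Psr.XX ψ v * Psr.XX ψ v = 0 := by
        unfold Psr.XX
        rw [Psr.vmv_mul_vmv, Psr.pf_eq, Psr.self_zero hodd, zero_smul]
      set R : Matrix (Fin n) (Fin n) ℚ_[l] := mat (M.ρ l) g - 1 with hR
      have hR1 : R = d • Psr.XX ψ v := by
        rw [hR, hg1, hd2, add_sub_cancel_left]
      have hRR : R * R = 0 := by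
        rw [hR1, smul_mul_smul_comm, hXX, smul_zero]
      have hpow : ∀ k : ℕ, mat (M.ρ l) g ^ k = 1 + (k : ℚ_[l]) • R := by
        intro k
        have hg2 : mat (M.ρ l) g = 1 + R := by rw [hR]; abel
        induction k with
        | zero => simp
        | succ k ih =>
          rw [pow_succ, ih, hg2, add_mul, one_mul, smul_mul_assoc, mul_add, mul_one, hRR, add_zero]
          push_cast
          rw [add_smul, one_smul]
          abel
      have hge : mat (M.ρ l) (g ^ e) - 1 = (e : ℚ_[l]) • R := by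
        rw [map_pow, hpow, add_sub_cancel_left]
      have hsq : (mat (M.ρ l) (g ^ e) - 1) ^ 2 = 0 := by
        rw [hge, pow_two, smul_mul_smul_comm, hRR, smul_zero]
      have hnil : (mat (M.ρ l) (g ^ e) - 1) ^ n = 0 := by
        obtain ⟨k, hk⟩ : ∃ k : ℕ, n = k + 2 := ⟨n - 2, by omega⟩
        have h3 : ∀ B : Matrix (Fin n) (Fin n) ℚ_[l], B ^ 2 = 0 → ∀ j, j = k + 2 → B ^ j = 0 := by
          rintro B hB j rfl
          rw [pow_add, hB, mul_zero]
        exact h3 _ hsq n hk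
      obtain ⟨T, hT, -, hT1, hT2⟩ := log7 ℚ_[l] n X (M.ρ l (g ^ e))
        (Subgroup.mem_map_of_mem _ (hHe g)) hnil
      have hT3 : T = (e : ℚ_[l]) • R := (hT1 hsq).trans hge
      have hisog : (mat (M.ρ l) (g ^ e)).transpose * ψ * mat (M.ρ l) (g ^ e) = ψ := by
        have hg3 : (mat (M.ρ l) g).transpose * ψ * mat (M.ρ l) g = ψ := by rw [hg1]; exact hc
        have : ∀ k : ℕ, (mat (M.ρ l) (g ^ k)).transpose * ψ * mat (M.ρ l) (g ^ k) = ψ := by
          intro k
          induction k with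
          | zero => simp
          | succ k ih =>
            rw [pow_succ, map_mul, Matrix.transpose_mul]
            have e1 : (mat (M.ρ l) g).transpose * (mat (M.ρ l) (g ^ k)).transpose * ψ *
                (mat (M.ρ l) (g ^ k) * mat (M.ρ l) g) = (mat (M.ρ l) g).transpose *
                ((mat (M.ρ l) (g ^ k)).transpose * ψ * mat (M.ρ l) (g ^ k)) *
                mat (M.ρ l) g := by
              simp only [mul_assoc]
            rw [e1, ih, hg3]
        exact this e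
      have hTs : T.transpose * ψ + ψ * T = 0 := hT2 ψ hisog
      refine ps1 ℚ_[l] n ψ T a (M.ρ l).range hdet hodd hbr (si7 F S hS n w h M l hM) ?_ hconj
        ⟨hT, hTs⟩ hTs ?_ A hA
      · rintro _ ⟨s, rfl⟩
        exact hsim s
      · have he0 : (e : ℚ_[l]) ≠ 0 := Nat.cast_ne_zero.mpr (by omega)
        rw [hT3, Matrix.rank_smul_of_mem_nonZeroDivisors _ (mem_nonZeroDivisors_of_ne_zero he0)]
        exact hg
    · exact ps2 ℚ_[l] n ψ (M.ρ l g) a hdet heven hbr (fun A hA => hA.2) hirr hc hg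
        (hconj _ ⟨g, rfl⟩) A hA
  exact ful_mono hXH key.1

end MT
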